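import Pool.Agent.U398.MV.Stm3b

set_option autoImplicit false

/-! # Project MV3, package PW: the local transform of the derivative of the prime sum -/

namespace Pool.Agent.U204.MV3.PW

open MeasureTheory Filter Topology Set Complex
open Pool.Agent.U398.MV

noncomputable section

/-! ## Gaussian integrals (copied from `Pool.Agent.U398.MV.Inner`) -/

lemma gauss_whole (u t : ℝ) :
    ∫ y : ℝ, cexp (I * u * y) * cexp (-((y : ℂ) - t) ^ 2 / 2) =
      (Real.sqrt (2 * Real.pi) : ℂ) * (cexp (I * u * t) * Real.exp (-u ^ 2 / 2)) := by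
  have h0 : ∀ y : ℝ, cexp (I * u * y) * cexp (-((y : ℂ) - t) ^ 2 / 2) =
      cexp (((-1 / 2 : ℂ)) * (y : ℂ) ^ 2 + (I * u + t) * y + (-t ^ 2 / 2)) := by
    intro y
    rw [← Complex.exp_add]
    congr 1
    ring
  simp_rw [h0]
  rw [integral_cexp_quadratic (by norm_num : ((-1 / 2 : ℂ)).re < 0)]
  have h1 : ((Real.pi : ℂ) / -(-1 / 2)) ^ (1 / 2 : ℂ) = (Real.sqrt (2 * Real.pi) : ℂ) := by
    have : (Real.pi : ℂ) / -(-1 / 2) = ((2 * Real.pi : ℝ) : ℂ) := by
      push_cast; ring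
    rw [this, Real.sqrt_eq_rpow, Complex.ofReal_cpow (by positivity)]
    norm_num
  rw [h1, Complex.ofReal_exp, ← Complex.exp_add]
  congr 2
  push_cast
  ring_nf
  simp only [I_sq]
  ring

lemma gnorm (u t y : ℝ) : ‖cexp (I * u * y) * cexp (-((y : ℂ) - t) ^ 2 / 2)‖ =
    Real.exp (-(y - t) ^ 2 / 2) := by
  rw [norm_mul, Complex.norm_exp, Complex.norm_exp, ← Real.exp_add]
  congr 1
  have h1 : (I * u * y : ℂ).re = 0 := by
    have : (I * u * y : ℂ) = ((u * y : ℝ) : ℂ) * I := by push_cast; ring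
    rw [this, Complex.re_ofReal_mul, Complex.I_re, mul_zero]
  have h2 : (-((y : ℂ) - t) ^ 2 / 2 : ℂ) = ((-(y - t) ^ 2 / 2 : ℝ) : ℂ) := by push_cast; ring
  rw [h1, h2, Complex.ofReal_re, zero_add]

lemma gint (t : ℝ) {b : ℝ} (hb : 0 < b) : Integrable (fun y : ℝ => Real.exp (-(y - t) ^ 2 / b)) := by
  have h := (integrable_exp_neg_mul_sq (b := 1 / b) (by positivity)).comp_sub_right t
  refine h.congr (Eventually.of_forall fun y => ?_)
  simp only
  congr 1
  ring

lemma gval (t : ℝ) {b : ℝ} (hb : 0 < b) : ∫ y : ℝ, Real.exp (-(y - t) ^ 2 / b) = Real.sqrt (Real.pi * b) := by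
  have h1 : ∫ y : ℝ, Real.exp (-(y - t) ^ 2 / b) = ∫ y : ℝ, Real.exp (-(1 / b) * y ^ 2) := by
    rw [← integral_sub_right_eq_self (fun y : ℝ => Real.exp (-(1 / b) * y ^ 2)) t]
    refine integral_congr_ae (Eventually.of_forall fun y => ?_)
    simp only
    congr 1
    ring
  rw [h1, integral_gaussian]
  congr 1
  field_simp

lemma gfint (u t : ℝ) : Integrable (fun y : ℝ => cexp (I * u * y) * cexp (-((y : ℂ) - t) ^ 2 / 2)) := by
  refine (gint t (b := 2) (by norm_num)).mono' ?_ (Eventually.of_forall fun y => ?_)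
  · exact (by fun_prop : Continuous fun y : ℝ =>
      cexp (I * u * y) * cexp (-((y : ℂ) - t) ^ 2 / 2)).aestronglyMeasurable
  · rw [gnorm]

/-- the truncation -/
lemma gauss_tail {L u t a b : ℝ} (hL : 2 ≤ L) (ha : a ≤ t - (L - 1)) (hb : t + (L - 1) ≤ b) :
    ‖(∫ y in a..b, cexp (I * u * y) * cexp (-((y : ℂ) - t) ^ 2 / 2)) -
      ∫ y : ℝ, cexp (I * u * y) * cexp (-((y : ℂ) - t) ^ 2 / 2)‖ ≤
      4 * Real.exp (-(L - 1) ^ 2 / 4) := by
  have hab : a ≤ b := by linarith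
  set f : ℝ → ℂ := fun y => cexp (I * u * y) * cexp (-((y : ℂ) - t) ^ 2 / 2) with hf
  have hfi : Integrable f := gfint u t
  rw [intervalIntegral.integral_of_le hab]
  have h1 := integral_add_compl (s := Ioc a b) measurableSet_Ioc hfi
  have h2 : (∫ y in Ioc a b, f y) - ∫ y, f y = - ∫ y in (Ioc a b)ᶜ, f y := by
    rw [← h1]; ring
  rw [h2, norm_neg]
  have h3 : ‖∫ y in (Ioc a b)ᶜ, f y‖ ≤ ∫ y in (Ioc a b)ᶜ,
      Real.exp (-(L - 1) ^ 2 / 4) * Real.exp (-(y - t) ^ 2 / 4) := by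
    refine norm_integral_le_of_norm_le ((gint t (b := 4) (by norm_num)).const_mul _).integrableOn ?_
    rw [ae_restrict_iff' measurableSet_Ioc.compl]
    refine Eventually.of_forall fun y hy => ?_
    rw [hf]
    simp only
    rw [gnorm, ← Real.exp_add]
    apply Real.exp_le_exp.mpr
    have h4 : (L - 1) ^ 2 ≤ (y - t) ^ 2 := by
      rw [mem_compl_iff, mem_Ioc, not_and_or, not_lt, not_le] at hy
      rcases hy with hy | hy
      · nlinarith
      · nlinarith
    linarith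
  refine h3.trans ?_
  have h5 : ∫ y in (Ioc a b)ᶜ, Real.exp (-(L - 1) ^ 2 / 4) * Real.exp (-(y - t) ^ 2 / 4) ≤
      ∫ y : ℝ, Real.exp (-(L - 1) ^ 2 / 4) * Real.exp (-(y - t) ^ 2 / 4) :=
    setIntegral_le_integral ((gint t (b := 4) (by norm_num)).const_mul _)
      (Eventually.of_forall fun y => by positivity)
  refine h5.trans ?_
  rw [integral_const_mul, gval t (by norm_num : (0:ℝ) < 4), mul_comm]
  gcongr
  rw [Real.sqrt_le_iff]
  refine ⟨by norm_num, ?_⟩
  nlinarith [Real.pi_le_four]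

/-! ## the derivative of the prime sum -/

/-- the primes up to `X` -/
abbrev pr (X : ℕ) : Finset ℕ := (Finset.Icc 1 X).filter Nat.Prime

/-- the coefficient -/
def co (p : ℕ) : ℝ := Real.log p / Real.sqrt p

lemma term_im {p : ℕ} (hp : 0 < p) (t : ℝ) :
    ((1 : ℂ) * (p : ℂ) ^ (-(1 / 2 + t * I) : ℂ)).im =
      -((Real.sqrt p)⁻¹ * Real.sin (t * Real.log p)) := by
  have hp' : (p : ℂ) ≠ 0 := by exact_mod_cast hp.ne'
  have hp0 : (0 : ℝ) < p := by exact_mod_cast hp
  rw [one_mul, Complex.cpow_def_of_ne_zero hp']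
  have h1 : Complex.log (p : ℂ) * (-(1 / 2 + t * I)) =
      ((-(Real.log p) / 2 : ℝ) : ℂ) + ((-(t * Real.log p) : ℝ) : ℂ) * I := by
    rw [← Complex.natCast_log]
    push_cast
    ring
  rw [h1, Complex.exp_im]
  have h2 : (((-(Real.log p) / 2 : ℝ) : ℂ) + ((-(t * Real.log p) : ℝ) : ℂ) * I).re =
      -(Real.log p) / 2 := by
    simp only [Complex.add_re, Complex.ofReal_re, Complex.re_ofReal_mul, Complex.I_re, mul_zero,
      add_zero]
  have h3 : (((-(Real.log p) / 2 : ℝ) : ℂ) + ((-(t * Real.log p) : ℝ) : ℂ) * I).im =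
      -(t * Real.log p) := by
    simp only [Complex.add_im, Complex.ofReal_im, Complex.im_ofReal_mul, Complex.I_im, mul_one,
      zero_add]
  rw [h2, h3, Real.sin_neg, mul_neg]
  have h4 : Real.exp (-(Real.log p) / 2) = (Real.sqrt p)⁻¹ := by
    rw [neg_div, Real.exp_neg, Real.sqrt_eq_rpow, Real.rpow_def_of_pos hp0]
    congr 2
    ring
  rw [h4]

lemma mem_pos {X p : ℕ} (hp : p ∈ pr X) : 0 < p := (Finset.mem_filter.1 hp).2.pos

lemma Pp_eq (X : ℕ) (t : ℝ) :
    Pp X t = -(1 / Real.pi) * ∑ p ∈ pr X, (Real.sqrt p)⁻¹ * Real.sin (t * Real.log p) := by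
  unfold Pp Ap
  rw [Complex.im_sum, neg_mul, ← mul_neg, ← Finset.sum_neg_distrib]
  congr 1
  refine Finset.sum_congr rfl fun p hp => ?_
  exact term_im (mem_pos hp) t

lemma deriv_Pp (X : ℕ) (y : ℝ) :
    deriv (Pp X) y = -(1 / Real.pi) * ∑ p ∈ pr X, co p * Real.cos (y * Real.log p) := by
  have h0 : Pp X = fun t => -(1 / Real.pi) *
      ∑ p ∈ pr X, (Real.sqrt p)⁻¹ * Real.sin (t * Real.log p) := funext (Pp_eq X)
  rw [h0]
  have h1 : HasDerivAt (fun t : ℝ => -(1 / Real.pi) *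
      ∑ p ∈ pr X, (Real.sqrt p)⁻¹ * Real.sin (t * Real.log p))
      (-(1 / Real.pi) * ∑ p ∈ pr X, (Real.sqrt p)⁻¹ * (Real.cos (y * Real.log p) *
        (1 * Real.log p))) y := by
    refine HasDerivAt.const_mul _ (HasDerivAt.fun_sum fun p _ => ?_)
    refine HasDerivAt.const_mul _ ?_
    exact ((hasDerivAt_id y).mul_const (Real.log p)).sin
  rw [h1.deriv]
  congr 1
  refine Finset.sum_congr rfl fun p _ => ?_
  unfold co
  ring

/-- the kernel -/
def K (t v y : ℝ) : ℂ := cexp (I * v * y) * cexp (-((y : ℂ) - t) ^ 2 / 2)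

lemma K_cont (t v : ℝ) : Continuous (K t v) := by
  unfold K
  fun_prop

/-- its integral over `[a, b]` -/
def J (a b t v : ℝ) : ℂ := ∫ y in a..b, K t v y

lemma term_K (l u t y : ℝ) :
    ((Real.cos (y * l) : ℝ) : ℂ) * K t u y = 1 / 2 * (K t (u + l) y + K t (u - l) y) := by
  unfold K
  rw [Complex.ofReal_cos, Complex.cos]
  have h1 : cexp (I * ((u + l : ℝ) : ℂ) * y) = cexp (I * u * y) * cexp (((y * l : ℝ) : ℂ) * I) := by
    rw [← Complex.exp_add]
    congr 1
    push_cast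
    ring
  have h2 : cexp (I * ((u - l : ℝ) : ℂ) * y) = cexp (I * u * y) * cexp (-((y * l : ℝ) : ℂ) * I) := by
    rw [← Complex.exp_add]
    congr 1
    push_cast
    ring
  rw [h1, h2]
  ring

lemma Wg_eq (X : ℕ) (a b u t : ℝ) : Wg (deriv (Pp X)) a b u t =
    ∑ p ∈ pr X, (-(co p / (2 * Real.pi)) : ℝ) *
      (J a b t (u + Real.log p) + J a b t (u - Real.log p)) := by
  unfold Wg
  have h1 : ∀ y : ℝ, ((deriv (Pp X) y : ℝ) : ℂ) * (cexp (I * u * y) * cexp (-((y : ℂ) - t) ^ 2 / 2)) =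
      ∑ p ∈ pr X, ((-(co p / (2 * Real.pi)) : ℝ) : ℂ) *
        (K t (u + Real.log p) y + K t (u - Real.log p) y) := by
    intro y
    have hK : (cexp (I * u * y) * cexp (-((y : ℂ) - t) ^ 2 / 2)) = K t u y := rfl
    rw [hK, deriv_Pp, Complex.ofReal_mul, Complex.ofReal_sum, Finset.mul_sum, Finset.sum_mul]
    refine Finset.sum_congr rfl fun p _ => ?_
    rw [Complex.ofReal_mul, mul_assoc, mul_assoc, term_K]
    push_cast
    ring
  simp_rw [h1]
  rw [intervalIntegral.integral_finsetSum]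
  · refine Finset.sum_congr rfl fun p _ => ?_
    rw [intervalIntegral.integral_const_mul, intervalIntegral.integral_add
      ((K_cont t _).intervalIntegrable _ _) ((K_cont t _).intervalIntegrable _ _)]
    rfl
  · intro p _
    exact (continuous_const.mul ((K_cont t _).add (K_cont t _))).intervalIntegrable _ _

/-- the main term -/
def G (t v : ℝ) : ℂ := (Real.sqrt (2 * Real.pi) : ℂ) * (cexp (I * v * t) * Real.exp (-v ^ 2 / 2))

lemma J_sub {L a b t v : ℝ} (hL : 2 ≤ L) (ha : a ≤ t - (L - 1)) (hb : t + (L - 1) ≤ b) :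
    ‖J a b t v - G t v‖ ≤ 4 * Real.exp (-(L - 1) ^ 2 / 4) := by
  have h := gauss_tail (u := v) hL ha hb
  rw [gauss_whole] at h
  exact h

lemma G_norm (t v : ℝ) : ‖G t v‖ = Real.sqrt (2 * Real.pi) * Real.exp (-v ^ 2 / 2) := by
  unfold G
  rw [norm_mul, norm_mul, Complex.norm_real, Complex.norm_real, Real.norm_of_nonneg (by positivity),
    Real.norm_of_nonneg (by positivity)]
  have h1 : ‖cexp (I * v * t)‖ = 1 := by
    have : (I * v * t : ℂ) = ((v * t : ℝ) : ℂ) * I := by push_cast; ring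
    rw [this, Complex.norm_exp_ofReal_mul_I]
  rw [h1, one_mul]

lemma log_le_sqrt {x : ℝ} (hx : 0 < x) : Real.log x ≤ Real.sqrt x := by
  have hs : 0 < Real.sqrt x := Real.sqrt_pos.2 hx
  have h1 : Real.log x = 2 * Real.log (Real.sqrt x) := by
    rw [Real.log_sqrt hx.le]
    ring
  have h2 : Real.log (Real.sqrt x / 2) ≤ Real.sqrt x / 2 - 1 :=
    Real.log_le_sub_one_of_pos (by positivity)
  rw [Real.log_div hs.ne' (by norm_num)] at h2
  have h3 : Real.log 2 ≤ 1 := by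
    have := Real.log_two_lt_d9
    linarith
  rw [h1]
  linarith

lemma co_nonneg {p : ℕ} (hp : 0 < p) : 0 ≤ co p := by
  unfold co
  have : 0 ≤ Real.log p := Real.log_natCast_nonneg p
  positivity

lemma co_le {p : ℕ} (hp : 0 < p) : co p ≤ 1 := by
  unfold co
  have hp0 : (0 : ℝ) < p := by exact_mod_cast hp
  rw [div_le_one (Real.sqrt_pos.2 hp0)]
  exact log_le_sqrt hp0

lemma Pf_sub (X : ℕ) (u t : ℝ) :
    ((1 / Real.sqrt (2 * Real.pi) : ℝ) : ℂ) * (Pf u t - Pq X u t) =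
      ∑ p ∈ pr X, ((co p / (2 * Real.pi) : ℝ) : ℂ) * G t (u - Real.log p) := by
  unfold Pq
  rw [sub_sub_cancel, Finset.mul_sum]
  refine Finset.sum_congr rfl fun p _ => ?_
  unfold G
  have h1 : (I * t * ((u : ℂ) - ((Real.log p : ℝ) : ℂ))) = I * ((u - Real.log p : ℝ) : ℂ) * t := by
    push_cast
    ring
  have hs0 : 0 < Real.sqrt (2 * Real.pi) := by positivity
  have hss : Real.sqrt (2 * Real.pi) * Real.sqrt (2 * Real.pi) = 2 * Real.pi :=
    Real.mul_self_sqrt (by positivity)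
  have h2 : 1 / Real.sqrt (2 * Real.pi) * co p = co p / (2 * Real.pi) * Real.sqrt (2 * Real.pi) := by
    have h := (fun (r c : ℝ) (hr : 0 < r) => (by field_simp : 1 / r * c = c / (r * r) * r))
      (Real.sqrt (2 * Real.pi)) (co p) hs0
    rw [hss] at h
    exact h
  have h3 : ((1 / Real.sqrt (2 * Real.pi) : ℝ) : ℂ) * ((co p : ℝ) : ℂ) =
      ((co p / (2 * Real.pi) : ℝ) : ℂ) * ((Real.sqrt (2 * Real.pi) : ℝ) : ℂ) := by
    exact_mod_cast h2
  rw [h1, ← mul_assoc, ← mul_assoc]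
  have h4 : ((Real.log p / Real.sqrt p : ℝ) : ℂ) = ((co p : ℝ) : ℂ) := rfl
  rw [h4, h3]
  ring

lemma exp_bd {u l : ℝ} (hu : 0 ≤ u) (hl : 0 ≤ l) : Real.exp (-(u + l) ^ 2 / 2) ≤
    Real.exp (5 / 2) * (Real.exp (-u) * Real.exp (-(2 * l))) := by
  rw [← Real.exp_add, ← Real.exp_add]
  apply Real.exp_le_exp.2
  nlinarith [sq_nonneg (u - 1), sq_nonneg (l - 2), mul_nonneg hu hl]

theorem t_PW : S_PW := by
  have hsum : Summable (fun n : ℕ => 1 / (n : ℝ) ^ 2) :=
    Real.summable_one_div_nat_pow.2 one_lt_two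
  set S2 : ℝ := ∑' n : ℕ, 1 / (n : ℝ) ^ 2 with hS2
  have hS20 : 0 ≤ S2 := tsum_nonneg fun n => by positivity
  refine ⟨Real.exp (5 / 2) * S2 + 4 * Real.exp 3, 100, by positivity, le_rfl, ?_⟩
  intro T hT X hX a b ha1 ha2 hb1 hb2 u t hu huL ht
  have hT0 : 0 < T := by linarith
  set L := Real.log T with hL
  have hL4 : 4 ≤ L := by
    rw [hL, Real.le_log_iff_exp_le hT0]
    have h1 : Real.exp 4 = Real.exp 1 ^ 4 := by rw [← Real.exp_nat_mul]; norm_num
    have h2 : Real.exp 1 < 2.7182818286 := Real.exp_one_lt_d9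
    have h3 : Real.exp 1 ^ 4 ≤ 2.7182818286 ^ 4 := pow_le_pow_left₀ (Real.exp_pos _).le h2.le 4
    rw [h1]
    refine h3.trans (le_trans ?_ hT)
    norm_num
  have hL0 : 0 < L := by linarith
  have hpi := Real.pi_gt_three
  rw [Wg_eq, Pf_sub, ← Finset.sum_add_distrib]
  set ε : ℝ := 4 * Real.exp (-(L - 1) ^ 2 / 4) with hε
  have hε0 : 0 ≤ ε := by positivity
  have hJ : ∀ v : ℝ, ‖J a b t v - G t v‖ ≤ ε := fun v =>
    J_sub (L := L) (by linarith) (by linarith [ht.1]) (by linarith [ht.2])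
  have hs1 : Real.sqrt (2 * Real.pi) / (2 * Real.pi) ≤ 1 := by
    rw [div_le_one (by positivity)]
    rw [Real.sqrt_le_left (by positivity)]
    nlinarith
  have hterm : ∀ p ∈ pr X, ‖((-(co p / (2 * Real.pi)) : ℝ) : ℂ) *
      (J a b t (u + Real.log p) + J a b t (u - Real.log p)) +
      ((co p / (2 * Real.pi) : ℝ) : ℂ) * G t (u - Real.log p)‖ ≤
      ε + Real.exp (5 / 2) * Real.exp (-u) * (1 / (p : ℝ) ^ 2) := by
    intro p hp
    have hp0 := mem_pos hp
    have hp1 : (0 : ℝ) < p := by exact_mod_cast hp0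
    have hl0 : 0 ≤ Real.log p := Real.log_natCast_nonneg p
    have hc0 := co_nonneg hp0
    have hc1 := co_le hp0
    have e1 : ((-(co p / (2 * Real.pi)) : ℝ) : ℂ) *
      (J a b t (u + Real.log p) + J a b t (u - Real.log p)) +
      ((co p / (2 * Real.pi) : ℝ) : ℂ) * G t (u - Real.log p) =
      ((-(co p / (2 * Real.pi)) : ℝ) : ℂ) *
        ((J a b t (u + Real.log p) - G t (u + Real.log p)) +
          (J a b t (u - Real.log p) - G t (u - Real.log p)) + G t (u + Real.log p)) := by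
      push_cast
      ring
    rw [e1, norm_mul, Complex.norm_real, Real.norm_eq_abs, abs_neg, abs_of_nonneg (by positivity)]
    have h1 : ‖(J a b t (u + Real.log p) - G t (u + Real.log p)) +
          (J a b t (u - Real.log p) - G t (u - Real.log p)) + G t (u + Real.log p)‖ ≤
        ε + ε + Real.sqrt (2 * Real.pi) * Real.exp (-(u + Real.log p) ^ 2 / 2) := by
      refine (norm_add_le _ _).trans (add_le_add ((norm_add_le _ _).trans (add_le_add (hJ _) (hJ _))) ?_)
      rw [G_norm]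
    have h2 : Real.exp (-(u + Real.log p) ^ 2 / 2) ≤
        Real.exp (5 / 2) * Real.exp (-u) * (1 / (p : ℝ) ^ 2) := by
      refine (exp_bd hu hl0).trans (le_of_eq ?_)
      have e2 : Real.exp (-(2 * Real.log p)) = 1 / (p : ℝ) ^ 2 := by
        rw [Real.exp_neg, two_mul, Real.exp_add, Real.exp_log hp1, one_div, sq]
      rw [e2, mul_assoc]
    have h3 : co p / (2 * Real.pi) ≤ 1 / (2 * Real.pi) := by gcongr
    have h4 : 1 / (2 * Real.pi) * (ε + ε) ≤ ε := by
      rw [div_mul_eq_mul_div, one_mul, div_le_iff₀ (by positivity)]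
      nlinarith
    calc co p / (2 * Real.pi) * ‖_‖ ≤ 1 / (2 * Real.pi) *
          (ε + ε + Real.sqrt (2 * Real.pi) * Real.exp (-(u + Real.log p) ^ 2 / 2)) := by
          gcongr
      _ = 1 / (2 * Real.pi) * (ε + ε) + Real.sqrt (2 * Real.pi) / (2 * Real.pi) *
          Real.exp (-(u + Real.log p) ^ 2 / 2) := by ring
      _ ≤ ε + 1 * (Real.exp (5 / 2) * Real.exp (-u) * (1 / (p : ℝ) ^ 2)) := by
          gcongr
      _ = _ := by rw [one_mul]
  refine (norm_sum_le _ _).trans ((Finset.sum_le_sum hterm).trans ?_)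
  rw [Finset.sum_add_distrib, Finset.sum_const, nsmul_eq_mul, ← Finset.mul_sum]
  have h5 : ∑ p ∈ pr X, 1 / (p : ℝ) ^ 2 ≤ S2 := hsum.sum_le_tsum _ fun n _ => by positivity
  have h6 : ((pr X).card : ℝ) ≤ X := by
    have h7 : (pr X).card ≤ X := by
      refine (Finset.card_filter_le _ _).trans ?_
      rw [Nat.card_Icc]
      omega
    exact_mod_cast h7
  have h8 : (X : ℝ) * ε ≤ 4 * Real.exp 3 * (1 / L) := by
    have h9 : T ^ (1 / 8 : ℝ) = Real.exp (L / 8) := by
      rw [Real.rpow_def_of_pos hT0]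
      congr 1
      rw [hL]
      ring
    calc (X : ℝ) * ε ≤ Real.exp (L / 8) * ε := by
          gcongr
          rw [← h9]
          exact hX
      _ = 4 * (Real.exp (L / 8 + -(L - 1) ^ 2 / 4)) := by
          rw [hε, Real.exp_add]; ring
      _ ≤ 4 * Real.exp (3 - L) := by
          gcongr
          nlinarith [sq_nonneg (L - 13 / 4)]
      _ = 4 * Real.exp 3 * (1 / Real.exp L) := by
          rw [Real.exp_sub]; ring
      _ ≤ 4 * Real.exp 3 * (1 / L) := by
          gcongr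
          linarith [Real.add_one_le_exp L]
  have h10 : ((pr X).card : ℝ) * ε ≤ 4 * Real.exp 3 * (1 / L) :=
    (mul_le_mul_of_nonneg_right h6 hε0).trans h8
  have h11 : 0 ≤ Real.exp (-u) := (Real.exp_pos _).le
  have h12 : 0 ≤ 1 / L := by positivity
  have h13 : Real.exp (5 / 2) * Real.exp (-u) * ∑ p ∈ pr X, 1 / (p : ℝ) ^ 2 ≤
      Real.exp (5 / 2) * Real.exp (-u) * S2 := by gcongr
  have h14 : 0 ≤ Real.exp 3 := (Real.exp_pos _).le
  have h15 : 0 ≤ Real.exp (5 / 2) * S2 := by positivity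
  nlinarith [mul_nonneg h14 h11, mul_nonneg h15 h12]

end

end Pool.Agent.U204.MV3.PW
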